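import Mathlib
import Pool.Agent.Q212.Penney2

/-!
# Penney's game against a uniformly random first player
-/

namespace Pool.Agent.Results.MP_988dcd_pr.RandOptAsymptotics

open Pool.Agent.Q212.Penney

/-- `p_n^{rand,opt} = 2/3 + O(n / 2^n)`, with the explicit constant `2` and for all `n ≥ 1`. -/
theorem result : ∀ n : ℕ, 1 ≤ n → |pRandOpt n - 2 / 3| ≤ 2 * n / 2 ^ n :=
  main

end Pool.Agent.Results.MP_988dcd_pr.RandOptAsymptotics
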